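import Pool.Agent.Helper22.TW.Stmts

/-! # LCO: additive reduction near infinity -/

set_option autoImplicit false

namespace Pool.Agent.Helper22.TW

open Pool.Agent.Helper14.BSC Polynomial

theorem lco_sum_lt {ι : Type} (s : Finset ι) (f : ι → ℂ_[2]) (B : ℝ) (hB : 0 < B)
    (h : ∀ i ∈ s, ‖f i‖ < B) : ‖∑ i ∈ s, f i‖ < B := by
  classical
  induction s using Finset.induction_on with
  | empty => simpa using hB
  | insert a s ha ih =>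
    rw [Finset.sum_insert ha]
    refine lt_of_le_of_lt (IsUltrametricDist.norm_add_le_max _ _) ?_
    exact max_lt (h a (Finset.mem_insert_self _ _)) (ih (fun i hi => h i (Finset.mem_insert_of_mem hi)))

theorem lco_norm_add {x y : ℂ_[2]} (h : ‖x‖ < ‖y‖) : ‖x + y‖ = ‖y‖ := by
  rw [IsUltrametricDist.norm_add_eq_max_of_norm_ne_norm (ne_of_lt h), max_eq_right h.le]

/-- the norm of a polynomial for large arguments -/
theorem lco_large {F : Type} [Field F] (σ₀ : F →+* ℂ_[2]) (G : F[X]) (hG : G ≠ 0) :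
    ∃ R : ℝ, 1 ≤ R ∧ ∀ τ : ℂ_[2], R < ‖τ‖ →
      ‖G.eval₂ σ₀ τ‖ = ‖σ₀ G.leadingCoeff‖ * ‖τ‖ ^ G.natDegree := by
  have hlc : σ₀ G.leadingCoeff ≠ 0 := by
    rw [Ne, map_eq_zero]
    exact leadingCoeff_ne_zero.2 hG
  have hlcn : 0 < ‖σ₀ G.leadingCoeff‖ := norm_pos_iff.2 hlc
  refine ⟨1 + ∑ n ∈ Finset.range G.natDegree, ‖σ₀ (G.coeff n)‖ / ‖σ₀ G.leadingCoeff‖, ?_, ?_⟩
  · have : 0 ≤ ∑ n ∈ Finset.range G.natDegree, ‖σ₀ (G.coeff n)‖ / ‖σ₀ G.leadingCoeff‖ :=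
      Finset.sum_nonneg (fun n _ => div_nonneg (norm_nonneg _) (norm_nonneg _))
    linarith
  intro τ hτ
  have h0 : 0 ≤ ∑ n ∈ Finset.range G.natDegree, ‖σ₀ (G.coeff n)‖ / ‖σ₀ G.leadingCoeff‖ :=
      Finset.sum_nonneg (fun n _ => div_nonneg (norm_nonneg _) (norm_nonneg _))
  have hτ1 : 1 < ‖τ‖ := by linarith
  have hτ0 : 0 < ‖τ‖ := by linarith
  have hlead : 0 < ‖σ₀ G.leadingCoeff * τ ^ G.natDegree‖ := by
    rw [norm_mul, norm_pow]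
    positivity
  rw [eval₂_eq_sum_range, Finset.sum_range_succ]
  have hlt : ‖∑ n ∈ Finset.range G.natDegree, σ₀ (G.coeff n) * τ ^ n‖ <
      ‖σ₀ (G.coeff G.natDegree) * τ ^ G.natDegree‖ := by
    refine lco_sum_lt _ _ _ hlead ?_
    intro n hn
    have hn' : n < G.natDegree := Finset.mem_range.1 hn
    have h1 : ‖σ₀ (G.coeff n)‖ / ‖σ₀ G.leadingCoeff‖ < ‖τ‖ := by
      have h2 : ‖σ₀ (G.coeff n)‖ / ‖σ₀ G.leadingCoeff‖ ≤
          ∑ n ∈ Finset.range G.natDegree, ‖σ₀ (G.coeff n)‖ / ‖σ₀ G.leadingCoeff‖ :=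
        Finset.single_le_sum (f := fun n => ‖σ₀ (G.coeff n)‖ / ‖σ₀ G.leadingCoeff‖)
          (fun n _ => div_nonneg (norm_nonneg _) (norm_nonneg _)) hn
      linarith
    rw [div_lt_iff₀ hlcn] at h1
    change ‖σ₀ (G.coeff n) * τ ^ n‖ < ‖σ₀ G.leadingCoeff * τ ^ G.natDegree‖
    rw [norm_mul, norm_pow, norm_mul, norm_pow]
    calc ‖σ₀ (G.coeff n)‖ * ‖τ‖ ^ n < (‖τ‖ * ‖σ₀ G.leadingCoeff‖) * ‖τ‖ ^ n :=
          mul_lt_mul_of_pos_right h1 (by positivity)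
      _ = ‖σ₀ G.leadingCoeff‖ * ‖τ‖ ^ (n + 1) := by ring
      _ ≤ ‖σ₀ G.leadingCoeff‖ * ‖τ‖ ^ G.natDegree :=
          mul_le_mul_of_nonneg_left (pow_le_pow_right₀ hτ1.le hn') hlcn.le
  rw [lco_norm_add hlt]
  change ‖σ₀ G.leadingCoeff * τ ^ G.natDegree‖ = _
  rw [norm_mul, norm_pow]

/-- comparison of two polynomials for large arguments -/
theorem lco_comp {F : Type} [Field F] (σ₀ : F →+* ℂ_[2]) (G H : F[X]) (hG : G ≠ 0)
    (hd : H.natDegree ≤ G.natDegree)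
    (hl : H.natDegree = G.natDegree → ‖σ₀ H.leadingCoeff‖ ≤ ‖σ₀ G.leadingCoeff‖) :
    ∃ R : ℝ, 1 ≤ R ∧ ∀ τ : ℂ_[2], R < ‖τ‖ → ‖H.eval₂ σ₀ τ‖ ≤ ‖G.eval₂ σ₀ τ‖ := by
  by_cases hH : H = 0
  · refine ⟨1, le_refl _, ?_⟩
    intro τ _
    rw [hH, eval₂_zero, norm_zero]
    exact norm_nonneg _
  obtain ⟨R1, hR1, h1⟩ := lco_large σ₀ G hG
  obtain ⟨R2, hR2, h2⟩ := lco_large σ₀ H hH
  have hlc : σ₀ G.leadingCoeff ≠ 0 := by
    rw [Ne, map_eq_zero]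
    exact leadingCoeff_ne_zero.2 hG
  have hlcn : 0 < ‖σ₀ G.leadingCoeff‖ := norm_pos_iff.2 hlc
  have hq : 0 ≤ ‖σ₀ H.leadingCoeff‖ / ‖σ₀ G.leadingCoeff‖ := div_nonneg (norm_nonneg _) (norm_nonneg _)
  refine ⟨R1 + R2 + ‖σ₀ H.leadingCoeff‖ / ‖σ₀ G.leadingCoeff‖, by linarith, ?_⟩
  intro τ hτ
  rw [h1 τ (by linarith), h2 τ (by linarith)]
  have hτ1 : 1 < ‖τ‖ := by linarith
  rcases lt_or_eq_of_le hd with hd' | hd'
  · have h3 : ‖σ₀ H.leadingCoeff‖ / ‖σ₀ G.leadingCoeff‖ < ‖τ‖ := by linarith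
    rw [div_lt_iff₀ hlcn] at h3
    calc ‖σ₀ H.leadingCoeff‖ * ‖τ‖ ^ H.natDegree
        ≤ (‖τ‖ * ‖σ₀ G.leadingCoeff‖) * ‖τ‖ ^ H.natDegree :=
          mul_le_mul_of_nonneg_right h3.le (by positivity)
      _ = ‖σ₀ G.leadingCoeff‖ * ‖τ‖ ^ (H.natDegree + 1) := by ring
      _ ≤ ‖σ₀ G.leadingCoeff‖ * ‖τ‖ ^ G.natDegree :=
          mul_le_mul_of_nonneg_left (pow_le_pow_right₀ hτ1.le hd') hlcn.le
  · rw [hd']
    exact mul_le_mul_of_nonneg_right (hl hd') (by positivity)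

theorem lco_exM (r R : ℝ) (hr0 : 0 < r) (hr1 : r < 1) (s : ℤ) (d : ℕ) (hd : Odd d) :
    ∃ M : ℕ, R < (r⁻¹) ^ M ∧ Odd (s - (d : ℤ) * (M : ℤ)) := by
  have h1 : 1 < r⁻¹ := (one_lt_inv₀ hr0).2 hr1
  obtain ⟨N, hN⟩ := pow_unbounded_of_one_lt R h1
  have hN1 : R < (r⁻¹) ^ (N + 1) := lt_of_lt_of_le hN (pow_le_pow_right₀ h1.le (Nat.le_succ N))
  obtain ⟨c, hc⟩ := hd
  rcases Int.even_or_odd (s - (d : ℤ) * (N : ℤ)) with he | ho
  · refine ⟨N + 1, hN1, ?_⟩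
    obtain ⟨a, ha⟩ := he
    refine ⟨a - c - 1, ?_⟩
    push_cast
    have hd' : (d : ℤ) = 2 * c + 1 := by rw [hc]; push_cast; ring
    have : s = a + a + (d : ℤ) * N := by linarith
    rw [this, hd']
    ring
  · exact ⟨N, hN, ho⟩

theorem st_LCO (hODD : ST_ODD) (hSPEC : ST_SPEC) (hUNF : ST_UNF) : ST_LCO := by
  intro F k Ω _ _ _ _ _ _ _ _ _ t hgen D e he0 hodd he f y h hdiv σ₀ E hfin hσE
  obtain ⟨i, j0, hij0, hd0, hmax⟩ := hodd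
  set d : ℕ := (e j0 - e i).natDegree with hd
  classical
  -- the choice of `j`
  obtain ⟨j, hjmem, hjmax⟩ := Finset.exists_max_image
    (Finset.univ.filter (fun l : Fin 3 => (e l - e i).natDegree = d))
    (fun l => ‖σ₀ (e l - e i).leadingCoeff‖) ⟨j0, by simp [hd]⟩
  have hjd : (e j - e i).natDegree = d := (Finset.mem_filter.1 hjmem).2
  have hdpos : d ≠ 0 := by
    intro h0
    rw [h0] at hd0
    exact absurd hd0 (by decide)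
  have hij : i ≠ j := by
    intro h0
    rw [← h0, sub_self, natDegree_zero] at hjd
    exact hdpos hjd.symm
  have hGne : e j - e i ≠ 0 := sub_ne_zero.2 (fun h0 => hij (he0 h0).symm)
  -- radius
  obtain ⟨R0, hR0, hlead⟩ := lco_large σ₀ (e j - e i) hGne
  have hcmp : ∀ l : Fin 3, ∃ R : ℝ, 1 ≤ R ∧ ∀ τ : ℂ_[2], R < ‖τ‖ →
      ‖(e l - e i).eval₂ σ₀ τ‖ ≤ ‖(e j - e i).eval₂ σ₀ τ‖ := by
    intro l
    apply lco_comp σ₀ _ _ hGne
    · rw [hjd]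
      exact hmax i l
    · intro hl
      rw [hjd] at hl
      exact hjmax l (Finset.mem_filter.2 ⟨Finset.mem_univ _, hl⟩)
  choose Rl hRl1 hRl using hcmp
  -- uniformizer
  obtain ⟨ϖ, hϖE, hϖ0, hϖ1, hϖ⟩ := hUNF 2 E hfin
  have hlc0 : σ₀ (e j - e i).leadingCoeff ≠ 0 := by
    rw [Ne, map_eq_zero]
    exact leadingCoeff_ne_zero.2 hGne
  obtain ⟨s, hs⟩ := hϖ _ (hσE _) hlc0
  obtain ⟨M, hM, hMo⟩ := lco_exM ‖ϖ‖ (R0 + ∑ l, Rl l) hϖ0 hϖ1 s d hd0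
  have hϖne : ϖ ≠ 0 := norm_pos_iff.1 hϖ0
  refine ⟨(ϖ⁻¹) ^ M, ‖(ϖ⁻¹) ^ M‖, pow_mem (inv_mem hϖE) M,
    norm_pos_iff.2 (pow_ne_zero _ (inv_ne_zero hϖne)), ?_⟩
  intro σ' hσ' hσ'E hnear P' hfC
  have hτ : ‖σ' t‖ = (‖ϖ‖⁻¹) ^ M := by
    have h1 : σ' t = (σ' t - (ϖ⁻¹) ^ M) + (ϖ⁻¹) ^ M := by ring
    rw [h1, lco_norm_add hnear, norm_pow, norm_inv]
  have hsum0 : ∀ l, Rl l ≤ ∑ l, Rl l := fun l =>
    Finset.single_le_sum (f := Rl) (fun l _ => by linarith [hRl1 l]) (Finset.mem_univ l)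
  have hbig0 : R0 < ‖σ' t‖ := by
    rw [hτ]
    have := hsum0 0
    linarith [hRl1 0]
  have hbigl : ∀ l, Rl l < ‖σ' t‖ := by
    intro l
    rw [hτ]
    linarith [hsum0 l]
  -- values
  have hval : ∀ G : F[X], σ' (aeval t G) = G.eval₂ σ₀ (σ' t) := by
    intro G
    rw [aeval_def, hom_eval₂]
    have hc : σ'.comp (algebraMap F k) = σ₀ := RingHom.ext hσ'
    rw [hc]
  let b : Fin 3 → E := fun l => ⟨σ' (aeval t (e l)), hσ'E _⟩
  have hb : Function.Injective b := by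
    intro l l' hll
    have h1 : σ' (aeval t (e l)) = σ' (aeval t (e l')) := congrArg Subtype.val hll
    have h2 : aeval t (e l) = aeval t (e l') := σ'.injective h1
    apply he
    change algebraMap k (NN D ∅) (aeval t (e l)) = algebraMap k (NN D ∅) (aeval t (e l'))
    rw [h2]
  have hdiff : ∀ l l', ((b l : E) : ℂ_[2]) - (b l' : E) = (e l - e l').eval₂ σ₀ (σ' t) := by
    intro l l'
    change σ' (aeval t (e l)) - σ' (aeval t (e l')) = _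
    rw [← map_sub, ← map_sub, hval]
  have hnj : ‖((b j : E) : ℂ_[2]) - (b i : E)‖ = ‖ϖ‖ ^ (s - (d : ℤ) * (M : ℤ)) := by
    rw [hdiff, hlead _ hbig0, hs, hτ, hjd]
    have h3 : ((‖ϖ‖⁻¹) ^ M) ^ d = ‖ϖ‖ ^ (-((d : ℤ) * (M : ℤ))) := by
      rw [← pow_mul, inv_pow, zpow_neg]
      congr 1
      rw [mul_comm M d]
      exact_mod_cast (zpow_natCast ‖ϖ‖ (d * M)).symm
    rw [h3, ← zpow_add₀ hϖ0.ne']
    rfl
  have hO := hODD E b hb i j hij (fun l => by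
      rw [hdiff, hdiff]
      exact hRl l _ (hbigl l)) (by
      intro z hz
      rw [hnj] at hz
      by_cases hz0 : (z : ℂ_[2]) = 0
      · rw [hz0, norm_zero] at hz
        have : 0 < ‖ϖ‖ ^ (s - (d : ℤ) * (M : ℤ)) := zpow_pos hϖ0 _
        rw [← hz] at this
        simp at this
      · obtain ⟨m, hm⟩ := hϖ _ z.2 hz0
        rw [hm] at hz
        have h4 : ‖ϖ‖ ^ (m * 2) = ‖ϖ‖ ^ (s - (d : ℤ) * (M : ℤ)) := by
          rw [← hz, zpow_mul]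
          norm_cast
        have h5 : m * 2 = s - (d : ℤ) * (M : ℤ) :=
          zpow_right_injective₀ hϖ0 (ne_of_lt hϖ1) h4
        rw [← h5] at hMo
        obtain ⟨c, hc⟩ := hMo
        omega)
  -- specialization
  obtain ⟨sp, hsp0, hspd, hspv⟩ := hSPEC k Ω D 2 σ' E hfin hσ'E P' (fun l => aeval t (e l)) he b hb
    (fun l => rfl)
  have hpow : ∀ (m : ℕ) (Q : EE (fun l => algebraMap k (LL D) (aeval t (e l)))),
      sp ((2 ^ m) • Q) = (2 ^ m) • sp Q := by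
    intro m
    induction m with
    | zero => intro Q; simp
    | succ m ih =>
      intro Q
      have h6 : (2 ^ (m + 1)) • Q = (2 ^ m) • Q + (2 ^ m) • Q := by
        rw [pow_succ, mul_nsmul, two_nsmul, ← nsmul_add]
      have h7 : (2 ^ (m + 1)) • sp Q = (2 ^ m) • sp Q + (2 ^ m) • sp Q := by
        rw [pow_succ, mul_nsmul, two_nsmul, ← nsmul_add]
      rw [h6, hspd, ih, h7]
  have hid : InfDiv (sp (EE.pt he f y h)) := by
    intro m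
    obtain ⟨Q, hQ⟩ := hdiv m
    refine ⟨sp Q, ?_⟩
    rw [← hpow]
    exact congrArg sp hQ
  have hz := hO _ hid
  obtain ⟨x₀, y₀, h₀, hx, _⟩ := (hspv f y h).2 hfC
  have hz2 : EE.pt hb x₀ y₀ h₀ = 0 := by
    rw [← hx]
    exact hz
  exact EE.pt_ne_zero hb h₀ hz2

end Pool.Agent.Helper22.TW
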